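import Pool.Agent.Y262.NU.Stm

/-!
# Project NU: equivalent forms

`fmE : StFmE`: a form which is equivalent to a compact form of infinite rank is compact and has
infinite rank (Gram-Schmidt).
-/

set_option autoImplicit false

open Set Filter Topology

noncomputable section

namespace Pool.Agent.Y15.NU

open Pool.Agent.Y262.QE Pool.Agent.Y262.NU

theorem fmE : StFmE := by
  intro H _ _ a b b' h c C hc hs hlo hup
  have hb'0 : ∀ v, 0 ≤ b' v v := fun v => (mul_nonneg hc.le (h.nb v)).trans (hlo v)
  refine ⟨h.sa, hs, h.na, hb'0, ?_, ?_, ?_⟩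
  · obtain ⟨c0, hc0, hco⟩ := h.co
    have hm1 : min 1 c ≤ 1 := min_le_left _ _
    have hm2 : min 1 c ≤ c := min_le_right _ _
    have hm0 : 0 < min 1 c := lt_min one_pos hc
    refine ⟨min 1 c * c0, by positivity, fun v => ?_⟩
    have h1 := hco v
    have h2 := hlo v
    have e1 : min 1 c * a v v ≤ a v v := by nlinarith [h.na v]
    have e2 : min 1 c * b v v ≤ b' v v := (mul_le_mul_of_nonneg_right hm2 (h.nb v)).trans h2
    calc min 1 c * c0 * ‖v‖ ^ 2 = min 1 c * (c0 * ‖v‖ ^ 2) := by ring
      _ ≤ min 1 c * (a v v + b v v) := mul_le_mul_of_nonneg_left h1 hm0.le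
      _ = min 1 c * a v v + min 1 c * b v v := by ring
      _ ≤ _ := add_le_add e1 e2
  · intro ε hε
    have hC'0 : 0 < max C 1 := lt_of_lt_of_le one_pos (le_max_right _ _)
    obtain ⟨N, l, hl⟩ := h.cp (ε / max C 1) (by positivity)
    refine ⟨N, fun i => Real.sqrt (max C 1) • l i, fun v => ?_⟩
    have h1 : b' v v ≤ max C 1 * b v v :=
      (hup v).trans (mul_le_mul_of_nonneg_right (le_max_left _ _) (h.nb v))
    have h2 := mul_le_mul_of_nonneg_left (hl v) hC'0.le
    refine h1.trans (h2.trans (le_of_eq ?_))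
    rw [mul_add, Finset.mul_sum]
    congr 1
    · field_simp
    · refine Finset.sum_congr rfl fun i _ => ?_
      simp only [ContinuousLinearMap.smul_apply, smul_eq_mul, mul_pow, Real.sq_sqrt hC'0.le]
  · obtain ⟨e, he⟩ := h.inf
    have key : ∀ s : Finset H, (∀ x ∈ s, b' x x = 1) → ∃ y, b' y y = 1 ∧ ∀ x ∈ s, b' x y = 0 := by
      intro s _
      let A : (Fin (s.card + 1) → ℝ) →ₗ[ℝ] H :=
        Fintype.linearCombination ℝ (fun i : Fin (s.card + 1) => e i)
      let L : (Fin (s.card + 1) → ℝ) →ₗ[ℝ] (s → ℝ) :=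
        LinearMap.pi fun x => ((b' x : H →L[ℝ] ℝ) : H →ₗ[ℝ] ℝ) ∘ₗ A
      have hne : LinearMap.ker L ≠ ⊥ := by
        apply LinearMap.ker_ne_bot_of_finrank_lt
        simp
      obtain ⟨w, hw, hw0⟩ := Submodule.exists_mem_ne_zero_of_ne_bot hne
      have hA : A w = ∑ i, w i • e i := by
        simp [A, Fintype.linearCombination_apply]
      have hbv : b (A w) (A w) = ∑ i, w i ^ 2 := by
        rw [hA]
        simp only [map_sum, ContinuousLinearMap.sum_apply, map_smul,
          ContinuousLinearMap.smul_apply, smul_eq_mul, he]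
        refine Finset.sum_congr rfl fun i _ => ?_
        rw [Finset.sum_eq_single i]
        · simp [sq]
        · intro j _ hji
          have : ¬ ((j : ℕ) = (i : ℕ)) := fun h => hji (Fin.ext h)
          have h' : ¬ ((i : ℕ) = (j : ℕ)) := fun h => this h.symm
          simp [this, h']
        · simp
      have hpos : 0 < b (A w) (A w) := by
        rw [hbv]
        obtain ⟨i, hi⟩ := Function.ne_iff.1 hw0
        exact Finset.sum_pos' (fun j _ => sq_nonneg _) ⟨i, Finset.mem_univ i, by
          have : w i ≠ 0 := hi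
          positivity⟩
      have hpos' : 0 < b' (A w) (A w) := lt_of_lt_of_le (mul_pos hc hpos) (hlo _)
      refine ⟨(Real.sqrt (b' (A w) (A w)))⁻¹ • A w, ?_, ?_⟩
      · simp only [map_smul, ContinuousLinearMap.smul_apply, smul_eq_mul]
        rw [← mul_assoc, ← mul_inv, Real.mul_self_sqrt hpos'.le, inv_mul_cancel₀ hpos'.ne']
      · intro x hx
        have h1 : L w ⟨x, hx⟩ = 0 := by
          have := LinearMap.mem_ker.1 hw
          rw [this]; rfl
        have h2 : b' x (A w) = 0 := h1
        rw [map_smul, h2, smul_zero]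
    haveI : Std.Symm (fun x y : H => b' x y = 0) := ⟨fun x y h => by rw [hs]; exact h⟩
    obtain ⟨f, hf, hff⟩ := exists_seq_of_forall_finset_exists' (fun x => b' x x = 1)
      (fun x y => b' x y = 0) key
    refine ⟨f, fun i j => ?_⟩
    split_ifs with hij
    · rw [← hij]; exact hf i
    · exact hff hij

end Pool.Agent.Y15.NU
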